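import Pool.Agent.MBS.Def

/-!
# The properties (a) and (c) give a cofinal set of invariant indices (helper66)

* **`GoodA.cof`** : if `H` is closed in the weak topology of the induced subspace then `P s` maps `H` into itself for
  a cofinal set of `s`;
* **`GoodC.cof`** : the same if `H` is monotonically Sokolov (projections of norm at most one).
-/

set_option autoImplicit false

open Set TopologicalSpace Filter Topology

namespace MBS

section

variable {𝕜 X Γ : Type*} [RCLike 𝕜] [NormedAddCommGroup X] [NormedSpace 𝕜 X] [PartialOrder Γ]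

/-- a sequence of indices has an upper bound -/
lemma ProjSkel.exists_ub {P : Γ → X →L[𝕜] X} (hP : ProjSkel P) (g : ℕ → Γ) : ∃ w, ∀ i, g i ≤ w := by
  classical
  choose c hc1 hc2 using hP.dir
  let h : ℕ → Γ := fun n => Nat.rec (g 0) (fun n s => c s (g (n + 1))) n
  have h0 : h 0 = g 0 := rfl
  have h1 : ∀ n, h (n + 1) = c (h n) (g (n + 1)) := fun n => rfl
  have hm : Monotone h := monotone_nat_of_le_succ fun n => by
    rw [h1]
    exact hc1 _ _
  obtain ⟨t, ht⟩ := hP.sup h hm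
  refine ⟨t, fun i => ?_⟩
  have h2 : g i ≤ h i := by
    cases i with
    | zero => exact le_of_eq h0.symm
    | succ n =>
      rw [h1]
      exact hc2 _ _
  exact h2.trans (ht.1 ⟨i, rfl⟩)

/-- a countable set of indices has an upper bound above a given index -/
lemma ProjSkel.exists_ub_set {P : Γ → X →L[𝕜] X} (hP : ProjSkel P) (s : Γ) {A : Set Γ} (hA : A.Countable) :
    ∃ w, s ≤ w ∧ ∀ a ∈ A, a ≤ w := by
  obtain ⟨f, hf⟩ := (hA.insert s).exists_eq_range (insert_nonempty s A)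
  obtain ⟨w, hw⟩ := hP.exists_ub f
  have h : ∀ a ∈ insert s A, a ≤ w := by
    intro a ha
    rw [hf] at ha
    obtain ⟨n, rfl⟩ := ha
    exact hw n
  exact ⟨w, h s (mem_insert _ _), fun a ha => h a (mem_insert_of_mem _ ha)⟩

/-- the ranges increase -/
lemma ProjSkel.range_mono {P : Γ → X →L[𝕜] X} (hP : ProjSkel P) {s t : Γ} (h : s ≤ t) : range (P s) ⊆ range (P t) := by
  rintro _ ⟨x, rfl⟩
  exact ⟨P s x, hP.right s t h x⟩

lemma ProjSkel.fix {P : Γ → X →L[𝕜] X} (hP : ProjSkel P) {s t : Γ} (h : s ≤ t) {x : X} (hx : x ∈ range (P s)) :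
    P t x = x := by
  obtain ⟨y, rfl⟩ := hx
  exact hP.right s t h y

/-- the neighbourhoods of a point in the weak topology -/
lemma tendsto_sigma {D : Set (X →L[𝕜] 𝕜)} {ι : Type*} {l : Filter ι} {u : ι → X} {z : X}
    (h : ∀ φ ∈ D, Tendsto (fun i => φ (u i)) l (𝓝 (φ z))) : Tendsto u l (@nhds X (sigmaTop D) z) := by
  rw [nhds_iInf, tendsto_iInf]
  intro φ
  rw [nhds_iInf, tendsto_iInf]
  intro hφ
  rw [nhds_induced, tendsto_comap_iff]
  exact h φ hφ

/-- the functionals are continuous in the weak topology -/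
lemma continuous_sigma {D : Set (X →L[𝕜] 𝕜)} {φ : X →L[𝕜] 𝕜} (h : φ ∈ D) :
    @Continuous X 𝕜 (sigmaTop D) _ (fun x => φ x) := by
  rw [continuous_iff_le_induced]
  exact iInf₂_le φ h

/-- a point which is approximated on the finite sets of functionals is in the closure -/
lemma mem_closure_sigma {D : Set (X →L[𝕜] 𝕜)} {H : Set X} {z : X}
    (h : ∀ (F : Finset (X →L[𝕜] 𝕜)) (n : ℕ), (↑F ⊆ D) → ∃ x ∈ H, ∀ φ ∈ F, ‖φ x - φ z‖ ≤ ‖φ‖ * (1 / (n + 1))) :
    z ∈ @closure X (sigmaTop D) H := by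
  classical
  choose! u hu1 hu2 using h
  refine @mem_closure_of_tendsto X (sigmaTop D) _ z H (fun p : Finset D × ℕ => u (p.1.image Subtype.val) p.2) atTop _ ?_
    (Eventually.of_forall fun p => hu1 _ _ ?_)
  · refine tendsto_sigma fun φ hφ => ?_
    rw [Metric.tendsto_atTop]
    intro ε hε
    obtain ⟨n, hn⟩ : ∃ n : ℕ, ‖φ‖ * (1 / (n + 1)) < ε := by
      obtain ⟨n, hn⟩ := exists_nat_gt (‖φ‖ / ε)
      refine ⟨n, ?_⟩
      rw [div_lt_iff₀ hε] at hn
      rw [mul_one_div, div_lt_iff₀ (by positivity)]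
      nlinarith
    refine ⟨({⟨φ, hφ⟩}, n), fun p hp => ?_⟩
    have h1 : φ ∈ p.1.image Subtype.val := by
      rw [Finset.mem_image]
      exact ⟨⟨φ, hφ⟩, hp.1 (Finset.mem_singleton_self _), rfl⟩
    have h2 : ((p.1.image Subtype.val : Finset (X →L[𝕜] 𝕜)) : Set (X →L[𝕜] 𝕜)) ⊆ D := by
      intro ψ hψ
      rw [Finset.mem_coe, Finset.mem_image] at hψ
      obtain ⟨a, -, rfl⟩ := hψ
      exact a.2
    have h3 := hu2 (p.1.image Subtype.val) p.2 h2 φ h1
    rw [dist_eq_norm]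
    refine h3.trans_lt (lt_of_le_of_lt ?_ hn)
    have h4 : (n : ℝ) ≤ p.2 := by exact_mod_cast hp.2
    refine mul_le_mul_of_nonneg_left ?_ (norm_nonneg _)
    exact one_div_le_one_div_of_le (by positivity) (by linarith)
  · intro ψ hψ
    rw [Finset.mem_coe, Finset.mem_image] at hψ
    obtain ⟨a, -, rfl⟩ := hψ
    exact a.2

/-- **(a) gives a cofinal set of invariant indices** -/
theorem GoodA.cof {P : Γ → X →L[𝕜] X} (hP : ProjSkel P) {H : Set X} (hH : GoodA P H) : Cof P H := by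
  classical
  intro s0
  -- the sets of indices
  let S : X → ℕ → Set Γ := fun y n => {s | ∃ x ∈ H, ‖P s x - y‖ < 1 / ((n : ℝ) + 1)}
  have hS : ∀ (y : X) (n : ℕ), ∃ t : Γ, ¬ Cofinal (S y n) → ∀ s, t ≤ s → s ∉ S y n := by
    intro y n
    by_cases h : Cofinal (S y n)
    · exact ⟨s0, fun h' => (h' h).elim⟩
    · unfold Cofinal at h
      push Not at h
      obtain ⟨t, ht⟩ := h
      exact ⟨t, fun _ s hs h1 => ht s h1 hs⟩
  choose τ hτ using hS
  -- the dense sets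
  have hD : ∀ s : Γ, ∃ C : Set X, C.Countable ∧ range (P s) ⊆ closure C := fun s => hP.sep s
  choose C hC1 hC2 using hD
  have hstep : ∀ s : Γ, ∃ w, s ≤ w ∧ ∀ a ∈ (fun q : X × ℕ => τ q.1 q.2) '' (C s ×ˢ univ), a ≤ w := fun s =>
    hP.exists_ub_set s (((hC1 s).prod countable_univ).image _)
  choose st hst1 hst2 using hstep
  let f : ℕ → Γ := fun n => Nat.rec s0 (fun _ s => st s) n
  have f1 : ∀ n, f (n + 1) = st (f n) := fun n => rfl
  have hf : Monotone f := monotone_nat_of_le_succ fun n => by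
    rw [f1]
    exact hst1 _
  obtain ⟨t, ht⟩ := hP.sup f hf
  refine ⟨t, ht.1 ⟨0, rfl⟩, fun x hx => ?_⟩
  have hcl : @closure X (sigmaTop (indD P)) H = H := @IsClosed.closure_eq X (sigmaTop (indD P)) H hH
  rw [← hcl]
  refine mem_closure_sigma fun F n hF => ?_
  -- an approximation of `P t x`
  have hz : P t x ∈ closure (⋃ n, range (P (f n))) := by
    rw [← hP.lim f hf t ht]
    exact ⟨x, rfl⟩
  obtain ⟨m, hm⟩ : ∃ m : ℕ, m = 2 * n + 1 := ⟨_, rfl⟩
  have hmpos : (0 : ℝ) < 1 / ((m : ℝ) + 1) := by positivity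
  obtain ⟨w, hw, hw2⟩ := Metric.mem_closure_iff.1 hz _ (half_pos hmpos)
  obtain ⟨k, hk⟩ := mem_iUnion.1 hw
  obtain ⟨y, hy, hy2⟩ := Metric.mem_closure_iff.1 (hC2 (f k) hk) _ (half_pos hmpos)
  have hyz : ‖P t x - y‖ < 1 / ((m : ℝ) + 1) := by
    rw [← dist_eq_norm]
    calc dist (P t x) y ≤ dist (P t x) w + dist w y := dist_triangle _ _ _
      _ < 1 / ((m : ℝ) + 1) / 2 + 1 / ((m : ℝ) + 1) / 2 := add_lt_add hw2 hy2
      _ = _ := by ring
  have hcof : Cofinal (S y m) := by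
    by_contra hcon
    refine hτ y m hcon t ?_ ⟨x, hx, hyz⟩
    have h1 := hst2 (f k) (τ y m) ⟨(y, m), ⟨hy, mem_univ _⟩, rfl⟩
    rw [← f1] at h1
    exact h1.trans (ht.1 ⟨k + 1, rfl⟩)
  -- an index above the supports of the functionals
  have hidx : ∀ φ : X →L[𝕜] 𝕜, ∃ s : Γ, φ ∈ F → ∃ ψ : X →L[𝕜] 𝕜, φ = ψ.comp (P s) := by
    intro φ
    by_cases h : φ ∈ F
    · obtain ⟨s, ψ, h1⟩ := hF h
      exact ⟨s, fun _ => ⟨ψ, h1⟩⟩
    · exact ⟨s0, fun h' => (h h').elim⟩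
  choose σ hσ using hidx
  obtain ⟨w', -, hw'⟩ := hP.exists_ub_set s0 ((F.countable_toSet).image σ)
  obtain ⟨s, hs1, hs2⟩ := hcof w'
  obtain ⟨x', hx', hxy⟩ := hs1
  refine ⟨x', hx', fun φ hφ => ?_⟩
  obtain ⟨ψ, hψ⟩ := hσ φ hφ
  have hle : σ φ ≤ s := (hw' _ ⟨φ, hφ, rfl⟩).trans hs2
  have e1 : φ x' = φ (P s x') := by
    rw [hψ]
    simp only [ContinuousLinearMap.comp_apply]
    rw [hP.left _ _ hle]
  rw [e1, ← map_sub]
  refine (φ.le_opNorm _).trans (mul_le_mul_of_nonneg_left ?_ (norm_nonneg _))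
  have e2 : P s x' - P t x = (P s x' - y) - (P t x - y) := by abel
  rw [e2]
  refine (norm_sub_le _ _).trans (le_trans (add_le_add hxy.le hyz.le) (le_of_eq ?_))
  rw [hm]
  push_cast
  field_simp
  ring

/-- the ranges are closed in the weak topology -/
lemma ProjSkel.closed_range {P : Γ → X →L[𝕜] X} (hP : ProjSkel P) (t : Γ) {x : X}
    (hx : x ∈ @closure X (sigmaTop (indD P)) (range (P t))) : x ∈ range (P t) := by
  by_contra hcon
  obtain ⟨s1, hs1⟩ := hP.cover x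
  obtain ⟨s, h1, h2⟩ := hP.dir s1 t
  have hxs : P s x = x := hP.fix h1 hs1
  have hne : x - P t x ≠ 0 := by
    intro h0
    exact hcon ⟨x, (sub_eq_zero.1 h0).symm⟩
  obtain ⟨g, -, hg⟩ := exists_dual_vector'' 𝕜 (x - P t x)
  let d : X →L[𝕜] 𝕜 := (g.comp (ContinuousLinearMap.id 𝕜 X - P t)).comp (P s)
  have hd : d ∈ indD P := ⟨s, _, rfl⟩
  have hd1 : d x ≠ 0 := by
    have h3 : d x = g (x - P t x) := by
      simp only [d, ContinuousLinearMap.comp_apply, sub_apply, ContinuousLinearMap.id_apply, hxs]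
    rw [h3, hg]
    exact_mod_cast norm_ne_zero_iff.2 hne
  have hcl : @IsClosed X (sigmaTop (indD P)) {y | d y = 0} :=
    @IsClosed.preimage X 𝕜 (sigmaTop (indD P)) _ (fun y => d y) (continuous_sigma hd) {0} isClosed_singleton
  have hsub : range (P t) ⊆ {y | d y = 0} := by
    rintro _ ⟨y, rfl⟩
    simp only [mem_ofPred_eq, d, ContinuousLinearMap.comp_apply, sub_apply, ContinuousLinearMap.id_apply]
    rw [hP.right t s h2, hP.proj, sub_self, map_zero]
  exact hd1 ((@IsClosed.closure_subset_iff X (sigmaTop (indD P)) _ _ hcl).2 hsub hx)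

/-- countably many functionals of norm at most one which separate the points of a separable set -/
lemma exists_sep {A : Set X} (hA : IsSeparable A) :
    ∃ ψ : ℕ → X →L[𝕜] 𝕜, ∀ z ∈ A, (∀ i, ψ i z = 0) → z = 0 := by
  obtain ⟨C, hC1, hC2⟩ := hA
  obtain ⟨f, hf⟩ := (hC1.insert 0).exists_eq_range (insert_nonempty 0 C)
  have h1 : ∀ i, ∃ g : X →L[𝕜] 𝕜, ‖g‖ ≤ 1 ∧ g (f i) = ‖f i‖ := fun i => exists_dual_vector'' 𝕜 (f i)
  choose ψ hψ1 hψ2 using h1
  refine ⟨ψ, fun z hz h0 => ?_⟩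
  rw [← norm_eq_zero]
  refine le_antisymm (le_of_forall_pos_le_add fun ε hε => ?_) (norm_nonneg _)
  obtain ⟨y, hy, hy2⟩ := Metric.mem_closure_iff.1 (hC2 hz) _ (half_pos hε)
  have hy3 : y ∈ insert 0 C := mem_insert_of_mem _ hy
  rw [hf] at hy3
  obtain ⟨i, rfl⟩ := hy3
  have h2 : ‖f i‖ ≤ ‖z - f i‖ := by
    have h3 : ((‖f i‖ : ℝ) : 𝕜) = ψ i (f i - z) := by
      rw [map_sub, h0 i, sub_zero, hψ2 i]
    have h4 : ‖((‖f i‖ : ℝ) : 𝕜)‖ = ‖f i‖ := by
      rw [RCLike.norm_ofReal, abs_of_nonneg (norm_nonneg _)]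
    rw [← h4, h3]
    refine (ContinuousLinearMap.le_opNorm _ _).trans ?_
    rw [norm_sub_rev]
    exact mul_le_of_le_one_left (norm_nonneg _) (hψ1 i)
  rw [dist_eq_norm] at hy2
  have h5 : ‖z‖ ≤ ‖z - f i‖ + ‖f i‖ := by
    have h6 := norm_add_le (z - f i) (f i)
    rwa [sub_add_cancel] at h6
  linarith

/-- **(c) gives a cofinal set of invariant indices** -/
theorem GoodC.cof {P : Γ → X →L[𝕜] X} (hP : ProjSkel P) (hno : ∀ s x, ‖P s x‖ ≤ ‖x‖) {H : Set X} (hH : GoodC P H) :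
    Cof P H := by
  classical
  intro s0
  let _ : TopologicalSpace H := TopologicalSpace.induced Subtype.val (sigmaTop (indD P))
  obtain ⟨r, N, h1, h2, h3⟩ := hH
  -- the separating functionals
  have hψ : ∀ s : Γ, ∃ ψ : ℕ → X →L[𝕜] 𝕜, ∀ z ∈ range (P s), (∀ i, ψ i z = 0) → z = 0 := fun s => exists_sep (hP.sep s)
  choose ψ hψ using hψ
  -- continuity
  have hcont : ∀ φ ∈ indD P, @Continuous H 𝕜 _ _ (fun h => φ h.1) := fun φ hφ =>
    @Continuous.comp H X 𝕜 _ (sigmaTop (indD P)) _ Subtype.val (fun x => φ x) (continuous_sigma hφ) continuous_induced_dom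
  -- the closed sets
  let cl : Γ → ℕ × ℚ × Fin 4 → Set H := fun s q =>
    match q.2.2 with
    | 0 => {h | RCLike.re (ψ s q.1 (P s h.1)) ≤ q.2.1}
    | 1 => {h | (q.2.1 : ℝ) ≤ RCLike.re (ψ s q.1 (P s h.1))}
    | 2 => {h | RCLike.im (ψ s q.1 (P s h.1)) ≤ q.2.1}
    | 3 => {h | (q.2.1 : ℝ) ≤ RCLike.im (ψ s q.1 (P s h.1))}
  have hclosed : ∀ s q, IsClosed (cl s q) := by
    intro s q
    have c1 : Continuous fun h : H => ψ s q.1 (P s h.1) := hcont ((ψ s q.1).comp (P s)) ⟨s, _, rfl⟩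
    have c2 : Continuous fun h : H => RCLike.re (ψ s q.1 (P s h.1)) := RCLike.continuous_re.comp c1
    have c3 : Continuous fun h : H => RCLike.im (ψ s q.1 (P s h.1)) := RCLike.continuous_im.comp c1
    obtain ⟨i, a, j⟩ := q
    fin_cases j
    · exact isClosed_le c2 continuous_const
    · exact isClosed_le continuous_const c2
    · exact isClosed_le c3 continuous_const
    · exact isClosed_le continuous_const c3
  let AA : Γ → Set (Set H) := fun s => range (cl s)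
  have hAA : ∀ s, CtblClosed (AA s) := fun s => ⟨countable_range _, by
    rintro _ ⟨q, rfl⟩
    exact hclosed s q⟩
  -- the next index
  have hpt : ∀ (M : Set H), ∃ s : Γ, M.Nonempty → ∃ m ∈ M, m.1 ∈ range (P s) := by
    intro M
    by_cases h : M.Nonempty
    · obtain ⟨m, hm⟩ := h
      obtain ⟨s, hs⟩ := hP.cover m.1
      exact ⟨s, fun _ => ⟨m, hm, hs⟩⟩
    · exact ⟨s0, fun h' => (h h').elim⟩
  choose σ hσ using hpt
  have hstep : ∀ p : Γ × {A : Set (Set H) // CtblClosed A}, ∃ w, p.1 ≤ w ∧ ∀ a ∈ σ '' (N p.2.1), a ≤ w := fun p =>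
    hP.exists_ub_set p.1 ((h1 p.2.1 p.2.2).2.2.1.image _)
  choose st hst1 hst2 using hstep
  let nx : Γ × {A : Set (Set H) // CtblClosed A} → Γ × {A : Set (Set H) // CtblClosed A} := fun p =>
    (st p, ⟨p.2.1 ∪ AA (st p), p.2.2.1.union (hAA _).1, fun F hF => hF.elim (p.2.2.2 F) ((hAA _).2 F)⟩)
  let f : ℕ → Γ × {A : Set (Set H) // CtblClosed A} := fun n => Nat.rec (s0, ⟨AA s0, hAA s0⟩) (fun _ p => nx p) n
  have f0 : f 0 = (s0, ⟨AA s0, hAA s0⟩) := rfl
  have f1 : ∀ n, f (n + 1) = nx (f n) := fun n => rfl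
  have hf : Monotone fun n => (f n).1 := monotone_nat_of_le_succ fun n => by
    rw [f1]
    exact hst1 _
  have hfA : Monotone fun n => (f n).2.1 := monotone_nat_of_le_succ fun n => by
    rw [f1]
    exact subset_union_left
  have hAf : ∀ n, AA (f n).1 ⊆ (f n).2.1 := by
    intro n
    cases n with
    | zero =>
      rw [f0]
    | succ n =>
      rw [f1]
      exact subset_union_right
  obtain ⟨t, ht⟩ := hP.sup _ hf
  have htle : ∀ n, (f n).1 ≤ t := fun n => ht.1 ⟨n, rfl⟩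
  obtain ⟨A, hA⟩ : ∃ A, A = ⋃ n, (f n).2.1 := ⟨_, rfl⟩
  have hAc : CtblClosed A := by
    rw [hA]
    refine ⟨countable_iUnion fun n => (f n).2.2.1, fun F hF => ?_⟩
    obtain ⟨n, hn⟩ := mem_iUnion.1 hF
    exact (f n).2.2.2 F hn
  have hNA : N A = ⋃ n, N (f n).2.1 := by
    rw [hA]
    exact h3 _ (fun n => (f n).2.2) hfA
  obtain ⟨-, -, -, hnet, hr⟩ := h1 A hAc
  refine ⟨t, htle 0, fun x hx => ?_⟩
  obtain ⟨y, hy⟩ : ∃ y, y = r A ⟨x, hx⟩ := ⟨_, rfl⟩
  -- the value of the retraction is in the range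
  have hyr : y.1 ∈ range (P t) := by
    refine hP.closed_range t ?_
    rw [@mem_closure_iff X (sigmaTop (indD P))]
    intro U hU hyU
    obtain ⟨M, hM, hyM, hMU⟩ := hnet y ⟨_, hy.symm⟩ (Subtype.val ⁻¹' U) ⟨U, hU, rfl⟩ hyU
    rw [hNA] at hM
    obtain ⟨n, hn⟩ := mem_iUnion.1 hM
    obtain ⟨m, hm, hm2⟩ := hσ M ⟨y, hyM⟩
    have h4 : σ M ≤ (f (n + 1)).1 := by
      rw [f1]
      exact hst2 (f n) _ ⟨M, hn, rfl⟩
    exact ⟨m.1, hMU hm, hP.range_mono (h4.trans (htle (n + 1))) hm2⟩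
  -- the functionals have the same values
  have hval : ∀ n i, ψ (f n).1 i (P (f n).1 y.1) = ψ (f n).1 i (P (f n).1 x) := by
    intro n i
    obtain ⟨s, hs⟩ : ∃ s, s = (f n).1 := ⟨_, rfl⟩
    rw [← hs]
    have h5 : ∀ q, cl s q ∈ A := by
      intro q
      rw [hA, mem_iUnion]
      refine ⟨n, hAf n ?_⟩
      rw [← hs]
      exact ⟨q, rfl⟩
    have h6 : ∀ q, (⟨x, hx⟩ : H) ∈ cl s q → y ∈ cl s q := by
      intro q hq
      rw [hy]
      exact hr _ (h5 q) ⟨_, hq, rfl⟩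
    refine RCLike.ext (le_antisymm ?_ ?_) (le_antisymm ?_ ?_)
    · refine le_of_forall_lt_rat_imp_le fun q hq => ?_
      exact h6 (i, q, 0) hq.le
    · refine le_of_forall_rat_lt_imp_le fun q hq => ?_
      exact h6 (i, q, 1) hq.le
    · refine le_of_forall_lt_rat_imp_le fun q hq => ?_
      exact h6 (i, q, 2) hq.le
    · refine le_of_forall_rat_lt_imp_le fun q hq => ?_
      exact h6 (i, q, 3) hq.le
  -- hence the value is `P t x`
  have hz : ∀ n, P (f n).1 (y.1 - P t x) = 0 := by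
    intro n
    refine hψ (f n).1 _ ⟨_, rfl⟩ fun i => ?_
    rw [map_sub, map_sub, hval n i, hP.left _ _ (htle n), sub_self]
  have hz2 : y.1 - P t x ∈ range (P t) := by
    obtain ⟨w, hw⟩ := hyr
    exact ⟨w - x, by rw [map_sub, hw]⟩
  have hz3 : y.1 - P t x = 0 := by
    rw [← norm_eq_zero]
    refine le_antisymm (le_of_forall_pos_le_add fun ε hε => ?_) (norm_nonneg _)
    rw [hP.lim _ hf t ht] at hz2
    obtain ⟨w, hw, hw2⟩ := Metric.mem_closure_iff.1 hz2 _ (half_pos hε)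
    obtain ⟨n, hn⟩ := mem_iUnion.1 hw
    have h7 : P (f n).1 w = w := hP.fix le_rfl hn
    have h8 : ‖w‖ ≤ ‖y.1 - P t x - w‖ := by
      have h9 : w = - P (f n).1 (y.1 - P t x - w) := by
        rw [map_sub, hz n, h7, zero_sub, neg_neg]
      calc ‖w‖ = ‖P (f n).1 (y.1 - P t x - w)‖ := by
            conv_lhs => rw [h9]
            rw [norm_neg]
        _ ≤ _ := hno _ _
    rw [dist_eq_norm] at hw2
    have h10 := norm_add_le (y.1 - P t x - w) w
    rw [sub_add_cancel] at h10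
    linarith
  rw [← sub_eq_zero.1 hz3]
  exact y.2

end

end MBS
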