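import Mathlib

/-!
# Projectional skeletons and Markushevich bases: definitions

* `ProjSkel P`: `P` is a projectional skeleton on `X` indexed by the partially ordered set `Γ`;
* `indD P`: the induced subspace of the dual; `sigmaTop D`: the weak topology generated by a set `D` of functionals;
* `MBasis x x'`: Markushevich basis; `hull x`: the set of its vectors with zero;
* `MonSok`: monotonically Sokolov spaces;
* `GoodA`, `GoodB`, `GoodC`: the three properties (a), (b), (c).
-/

set_option autoImplicit false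

open Set TopologicalSpace

namespace MBS

section skel

variable {𝕜 X Γ : Type*} [RCLike 𝕜] [NormedAddCommGroup X] [NormedSpace 𝕜 X] [PartialOrder Γ]

/-- **projectional skeleton** on `X` indexed by `Γ` -/
structure ProjSkel (P : Γ → X →L[𝕜] X) : Prop where
  /-- the index set is nonempty -/
  ne : Nonempty Γ
  /-- the index set is up-directed -/
  dir : ∀ s t : Γ, ∃ w, s ≤ w ∧ t ≤ w
  /-- every increasing sequence has a supremum -/
  sup : ∀ f : ℕ → Γ, Monotone f → ∃ t, IsLUB (range f) t
  /-- projections -/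
  proj : ∀ s x, P s (P s x) = P s x
  /-- separable ranges -/
  sep : ∀ s, IsSeparable (range (P s))
  /-- the ranges cover the space -/
  cover : ∀ x, ∃ s, x ∈ range (P s)
  /-- `P s = P s P t` for `s ≤ t` -/
  left : ∀ s t, s ≤ t → ∀ x, P s (P t x) = P s x
  /-- `P s = P t P s` for `s ≤ t` -/
  right : ∀ s t, s ≤ t → ∀ x, P t (P s x) = P s x
  /-- the range at a supremum is the closure of the union of the ranges -/
  lim : ∀ f : ℕ → Γ, Monotone f → ∀ t, IsLUB (range f) t →
    range (P t) = closure (⋃ n, range (P (f n)))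

/-- **the subspace of the dual induced by a skeleton**: the union of the ranges of the adjoints -/
def indD (P : Γ → X →L[𝕜] X) : Set (X →L[𝕜] 𝕜) := {φ | ∃ (s : Γ) (ψ : X →L[𝕜] 𝕜), φ = ψ.comp (P s)}

/-- **the weak topology** on `X` generated by a set of functionals -/
@[reducible] def sigmaTop (D : Set (X →L[𝕜] 𝕜)) : TopologicalSpace X :=
  ⨅ φ ∈ D, TopologicalSpace.induced (fun x => φ x) inferInstance

/-- **Markushevich basis** -/
structure MBasis {Λ : Type*} (x : Λ → X) (x' : Λ → X →L[𝕜] 𝕜) : Prop where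
  /-- the functional of a vector is one at the vector -/
  one : ∀ α, x' α (x α) = 1
  /-- biorthogonality -/
  zero : ∀ α β, α ≠ β → x' α (x β) = 0
  /-- the vectors are linearly dense -/
  dense : Dense (Submodule.span 𝕜 (range x) : Set X)
  /-- the functionals separate the points of the space -/
  total : ∀ y, (∀ α, x' α y = 0) → y = 0

/-- the set of the vectors of a basis with zero -/
def hull {Λ : Type*} (x : Λ → X) : Set X := insert 0 (range x)

/-- a set of indices is cofinal -/
def Cofinal (Γ' : Set Γ) : Prop := ∀ s, ∃ t ∈ Γ', s ≤ t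

/-- a set of indices contains the suprema of its increasing sequences -/
def SigmaClosed (Γ' : Set Γ) : Prop :=
  ∀ f : ℕ → Γ, Monotone f → (∀ n, f n ∈ Γ') → ∀ t, IsLUB (range f) t → t ∈ Γ'

end skel

section sokolov

/-- a family of sets is an outer network of `Y` -/
def OuterNet {T : Type*} [TopologicalSpace T] (N : Set (Set T)) (Y : Set T) : Prop :=
  ∀ y ∈ Y, ∀ U : Set T, IsOpen U → y ∈ U → ∃ A ∈ N, y ∈ A ∧ A ⊆ U

/-- a countable family of closed sets -/
def CtblClosed {T : Type*} [TopologicalSpace T] (A : Set (Set T)) : Prop :=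
  A.Countable ∧ ∀ F ∈ A, IsClosed F

/-- **monotonically Sokolov space** -/
def MonSok (T : Type*) [TopologicalSpace T] : Prop :=
  ∃ (r : Set (Set T) → T → T) (N : Set (Set T) → Set (Set T)),
    (∀ A, CtblClosed A → Continuous (r A) ∧ (∀ t, r A (r A t) = r A t) ∧ (N A).Countable ∧
      OuterNet (N A) (range (r A)) ∧ ∀ F ∈ A, r A '' F ⊆ F) ∧
    (∀ A B, CtblClosed A → CtblClosed B → A ⊆ B → N A ⊆ N B) ∧
    ∀ A : ℕ → Set (Set T), (∀ n, CtblClosed (A n)) → Monotone A → N (⋃ n, A n) = ⋃ n, N (A n)

end sokolov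

section good

variable {𝕜 X Γ : Type*} [RCLike 𝕜] [NormedAddCommGroup X] [NormedSpace 𝕜 X] [PartialOrder Γ]

/-- **(a)** `H` is closed in the weak topology of the induced subspace -/
def GoodA (P : Γ → X →L[𝕜] X) (H : Set X) : Prop := @IsClosed X (sigmaTop (indD P)) H

/-- **(b)** `H` is mapped into itself by the projections of a cofinal set of indices which is closed under
suprema of increasing sequences -/
def GoodB (P : Γ → X →L[𝕜] X) (H : Set X) : Prop :=
  ∃ Γ' : Set Γ, Cofinal Γ' ∧ SigmaClosed Γ' ∧ ∀ s ∈ Γ', P s '' H ⊆ H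

/-- **(c)** `H` with the weak topology of the induced subspace is monotonically Sokolov -/
def GoodC (P : Γ → X →L[𝕜] X) (H : Set X) : Prop :=
  @MonSok H (TopologicalSpace.induced Subtype.val (sigmaTop (indD P)))

/-- `H` is mapped into itself by the projections of a cofinal set of indices -/
def Cof (P : Γ → X →L[𝕜] X) (H : Set X) : Prop := ∀ s0, ∃ s, s0 ≤ s ∧ ∀ x ∈ H, P s x ∈ H

theorem GoodB.cof {P : Γ → X →L[𝕜] X} {H : Set X} (h : GoodB P H) : Cof P H := by
  obtain ⟨Γ', h1, -, h3⟩ := h
  intro s0
  obtain ⟨t, ht, hs⟩ := h1 s0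
  exact ⟨t, hs, fun x hx => h3 t ht ⟨x, hx, rfl⟩⟩

end good

end MBS
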