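import Pool.Agent.MBS.Proj

/-!
# No Markushevich basis of the space is mapped into itself by cofinally many projections

* `ev_cl`: unit vectors in the closed span of the vectors of the basis supported in `N`;
* `YY`: the good points; `exists_YY`: arbitrarily large, closed under a function;
* `exists_kk`, `kk_unique`: the vector of the basis with last coordinate `y`;
* **`no_cof`**: the contradiction.
-/

set_option autoImplicit false

noncomputable section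

open Set Cardinal

namespace MBS

variable {𝕜 : Type} [RCLike 𝕜] {W : Type} [LinearOrder W] [WellFoundedLT W] {C : W → Set W} {b : W → W → W}
variable {Λ : Type*} {x : Λ → L1 𝕜 W} {x' : Λ → L1 𝕜 W →L[𝕜] 𝕜}

/-- the good index sets containing a countable set -/
theorem cof_plain {H : Set (L1 𝕜 W)} (h : Cof (fun N : {N : Set W // Gam C b N} => PP 𝕜 C N.1) H) {S : Set W}
    (hS : S.Countable) : ∃ N, Gam C b N ∧ S ⊆ N ∧ ∀ z ∈ H, PP 𝕜 C N z ∈ H := by
  obtain ⟨M, hM, hSM⟩ := exists_gam C b hS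
  obtain ⟨N, hMN, hN⟩ := h ⟨M, hM⟩
  exact ⟨N.1, N.2, hSM.trans hMN, hN⟩

/-- unit vectors in the closed span -/
theorem ev_cl (hd : Dense (Submodule.span 𝕜 (range x) : Set (L1 𝕜 W))) {N : Set W}
    (hN : ∀ z ∈ hull x, PP 𝕜 C N z ∈ hull x) {n : W} (hn : n ∈ N) :
    (ev n : L1 𝕜 W) ∈ closure (Submodule.span 𝕜 (hull x ∩ (sset 𝕜 N : Set (L1 𝕜 W))) : Set (L1 𝕜 W)) := by
  have h1 : PP 𝕜 C N (ev n) = ev n := by rw [PP_ev, vec_self hn]
  rw [← h1]
  refine map_mem_closure (PP 𝕜 C N).continuous (hd _) ?_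
  have h2 : Submodule.span 𝕜 (range x) ≤
      (Submodule.span 𝕜 (hull x ∩ (sset 𝕜 N : Set (L1 𝕜 W)))).comap (PP 𝕜 C N).toLinearMap := by
    refine Submodule.span_le.2 ?_
    rintro _ ⟨α, rfl⟩
    exact Submodule.subset_span ⟨hN _ (mem_insert_of_mem _ ⟨α, rfl⟩), PP_mem N _⟩
  exact fun z hz => h2 hz

/-- the good points -/
def YY (C : W → Set W) (x : Λ → L1 𝕜 W) : Set W :=
  {y | ¬ (C y).Countable ∧ ∀ f ∈ sset 𝕜 (Iio y),
    f ∈ closure (Submodule.span 𝕜 (hull x ∩ (sset 𝕜 (Iio y) : Set (L1 𝕜 W))) : Set (L1 𝕜 W))}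

theorem exists_YY (h : Two W) (hC : Lad C) (hd : Dense (Submodule.span 𝕜 (range x) : Set (L1 𝕜 W)))
    (hcof : Cof (fun N : {N : Set W // Gam C b N} => PP 𝕜 C N.1) (hull x)) (f : W → W) (w0 : W) :
    ∃ y ∈ YY C x, w0 < y ∧ ∀ z < y, f z < y := by
  choose N hN1 hN2 hN3 using fun g : W => cof_plain hcof (countable_singleton g)
  choose B hB using fun g : W => h.bddC (hN1 g).ctb
  obtain ⟨y, hy1, hy2, hy3⟩ := exists_closed h hC (fun g => max (f g) (B g)) w0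
  refine ⟨y, ⟨hy2, fun k hk => ?_⟩, hy1, fun z hz => (le_max_left _ _).trans_lt (hy3 z hz)⟩
  have h1 : ∀ g ∈ Iio y, (ev g : L1 𝕜 W) ∈
      (Submodule.span 𝕜 (hull x ∩ (sset 𝕜 (Iio y) : Set (L1 𝕜 W)))).topologicalClosure := by
    intro g hg
    have h2 := ev_cl (C := C) hd (hN3 g) (hN2 g rfl)
    refine closure_mono (Submodule.span_mono (inter_subset_inter_right _ (sset_mono fun n hn => ?_))) h2
    exact (hB g n hn).trans ((le_max_right _ _).trans_lt (hy3 g hg))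
  refine sset_sub hk isClosed_closure fun s hs => ?_
  have h3 : ∑ g ∈ s, k g • (ev g : L1 𝕜 W) ∈
      (Submodule.span 𝕜 (hull x ∩ (sset 𝕜 (Iio y) : Set (L1 𝕜 W)))).topologicalClosure :=
    Submodule.sum_mem _ fun g hg => Submodule.smul_mem _ _ (h1 g (hs g hg))
  exact h3

/-- a continuous functional which vanishes on a set vanishes on the closed span -/
theorem zero_cl (φ : L1 𝕜 W →L[𝕜] 𝕜) {S : Set (L1 𝕜 W)} (hS : ∀ z ∈ S, φ z = 0) {f : L1 𝕜 W}
    (hf : f ∈ closure (Submodule.span 𝕜 S : Set (L1 𝕜 W))) : φ f = 0 := by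
  have h1 : closure (Submodule.span 𝕜 S : Set (L1 𝕜 W)) ⊆ {z | φ z = 0} := by
    refine closure_minimal ?_ (isClosed_eq φ.continuous continuous_const)
    have h2 : Submodule.span 𝕜 S ≤ LinearMap.ker φ.toLinearMap := Submodule.span_le.2 fun z hz => hS z hz
    exact fun z hz => h2 hz
  exact h1 hf

theorem vec_Iic {N : Set W} {g y : W} (hy : y ∈ N) (hg : g ≤ y) : vec 𝕜 C N g ∈ sset 𝕜 (Iic y) := by
  obtain ⟨n, hn⟩ := exists_nx (N := N) (g := g) ⟨y, hy, hg⟩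
  rw [vec_of hn]
  exact Submodule.smul_mem _ _ (ev_mem (hn.min y hy hg))

theorem PP_Iic {N : Set W} {y z : W} (hy : y ∈ N) (hz : z ≤ y) {f : L1 𝕜 W} (hf : f ∈ sset 𝕜 (Iic z)) :
    PP 𝕜 C N f ∈ sset 𝕜 (Iic y) := by
  refine map_sset (fun g hg => ?_) hf
  rw [PP_ev]
  exact vec_Iic hy (le_trans hg hz)

/-- a vector of the basis with last coordinate `y` -/
theorem exists_kk (hC : Lad C) {y : W} (hy : y ∈ YY C x) {N : Set W} (hN : Gam C b N)
    (hN2 : ∀ z ∈ hull x, PP 𝕜 C N z ∈ hull x) (hyN : y ∈ N) :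
    ∃ k ∈ hull x, k ∈ sset 𝕜 (Iic y) ∧ k y ≠ 0 := by
  by_contra hno
  push Not at hno
  obtain ⟨g, hg, hgb⟩ := hC.bdd hy.1 (S := N ∩ Iio y) (hN.ctb.mono inter_subset_left) (fun s hs => hs.2)
  have hnx : IsNx N g y := ⟨hyN, hg.le, fun m hm hgm => by
    by_contra hlt
    exact absurd (hgb m ⟨hm, not_le.1 hlt⟩) (not_lt.2 hgm)⟩
  have h1 := zero_cl ((co 𝕜 y).comp (PP 𝕜 C N)) (S := hull x ∩ (sset 𝕜 (Iio y) : Set (L1 𝕜 W))) (fun z hz => by
    rw [ContinuousLinearMap.comp_apply, co_apply]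
    exact hno _ (hN2 z hz.1) (PP_Iic hyN le_rfl (sset_mono Iio_subset_Iic_self hz.2)))
    (hy.2 (ev g) (ev_mem hg))
  rw [ContinuousLinearMap.comp_apply, PP_ev, vec_of hnx, map_smul, co_apply, ev_self, smul_eq_mul, mul_one] at h1
  exact pow_ne_zero _ (by norm_num) h1

/-- **uniqueness** -/
theorem kk_unique (hb : MBasis x x') {y : W} (hy : y ∈ YY C x) {k k' : L1 𝕜 W} (hk : k ∈ hull x)
    (hk' : k' ∈ hull x) (hs : k ∈ sset 𝕜 (Iic y)) (hs' : k' ∈ sset 𝕜 (Iic y)) (h0 : k y ≠ 0) (h0' : k' y ≠ 0) :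
    k = k' := by
  by_contra hne
  rcases hk' with rfl | ⟨α, rfl⟩
  · exact h0' rfl
  rcases hk with rfl | ⟨β, rfl⟩
  · exact h0 rfl
  have hab : α ≠ β := fun e => hne (by rw [e])
  set z := x α - (x α y / x β y) • x β with hz
  have hzs : z ∈ sset 𝕜 (Iio y) := by
    intro g hg
    rcases (not_lt.1 hg).eq_or_lt with he | hlt
    · rw [hz, lp.coeFn_sub, Pi.sub_apply, lp.coeFn_smul, Pi.smul_apply, smul_eq_mul, ← he, div_mul_cancel₀ _ h0,
        sub_self]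
    · rw [hz, lp.coeFn_sub, Pi.sub_apply, lp.coeFn_smul, Pi.smul_apply, hs g (not_le.2 hlt), hs' g (not_le.2 hlt),
        smul_zero, sub_zero]
  have h1 : x' α z = 0 := by
    refine zero_cl (x' α) (S := hull x ∩ (sset 𝕜 (Iio y) : Set (L1 𝕜 W))) (fun w hw => ?_) (hy.2 z hzs)
    rcases hw with ⟨rfl | ⟨γ, rfl⟩, hw2⟩
    · exact map_zero _
    · refine hb.zero α γ fun e => h0' ?_
      rw [e]
      exact hw2 y (lt_irrefl y)
  rw [hz, map_sub, map_smul, hb.one, hb.zero α β hab, smul_zero, sub_zero] at h1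
  exact one_ne_zero h1

/-- **the contradiction** -/
theorem no_cof (h : Two W) (hC : Lad C) (hb : MBasis x x')
    (hcof : Cof (fun N : {N : Set W // Gam C b N} => PP 𝕜 C N.1) (hull x)) : False := by
  have hk : ∀ y, ∃ k : L1 𝕜 W, y ∈ YY C x → k ∈ hull x ∧ k ∈ sset 𝕜 (Iic y) ∧ k y ≠ 0 := by
    intro y
    by_cases hy : y ∈ YY C x
    · obtain ⟨N, h1, h2, h3⟩ := cof_plain hcof (countable_singleton y)
      obtain ⟨k, hk⟩ := exists_kk hC hy h1 h3 (h2 rfl)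
      exact ⟨k, fun _ => hk⟩
    · exact ⟨0, fun h => absurd h hy⟩
  choose K hK using hk
  have ht : ∀ y, ∃ t, y ∈ YY C x → t < y ∧ ∀ g, g < y → K y g ≠ 0 → g < t := by
    intro y
    by_cases hy : y ∈ YY C x
    · obtain ⟨t, ht1, ht2⟩ := hC.bdd hy.1 (S := {g | K y g ≠ 0 ∧ g < y})
        ((l1_sum (K y)).countable_support.mono fun g hg => norm_ne_zero_iff.2 hg.1) (fun s hs => hs.2)
      exact ⟨t, fun _ => ⟨ht1, fun g hg hg0 => ht2 g ⟨hg0, hg⟩⟩⟩
    · exact ⟨y, fun h => absurd h hy⟩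
  choose t ht using ht
  choose N hN1 hN2 hN3 using fun y : W => cof_plain hcof ((countable_singleton (t y)).insert y)
  have hs : ∀ y, ∃ s, y ∈ YY C x → s < y ∧ ∀ n ∈ N y, n < y → n < s := by
    intro y
    by_cases hy : y ∈ YY C x
    · obtain ⟨t, ht1, ht2⟩ := hC.bdd hy.1 (S := N y ∩ Iio y) ((hN1 y).ctb.mono inter_subset_left)
        (fun s hs => hs.2)
      exact ⟨t, fun _ => ⟨ht1, fun n hn hny => ht2 n ⟨hn, hny⟩⟩⟩
    · exact ⟨y, fun h => absurd h hy⟩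
  choose s hs using hs
  have hβ : ∃ β, ∀ w, ∃ y ∈ {y | y ∈ YY C x ∧ s y ≤ β ∧ β < y}, w < y := by
    by_contra hno
    push Not at hno
    choose G hG using hno
    obtain ⟨w0⟩ : Nonempty W := by
      by_contra hne
      rw [not_nonempty_iff] at hne
      have h1 := h.big
      rw [mk_eq_zero] at h1
      exact absurd h1 not_lt_zero
    obtain ⟨y, hy, -, hyG⟩ := exists_YY h hC hb.dense hcof G w0
    have h1 := (hs y hy).1
    exact absurd (hG (s y) y ⟨hy, le_rfl, h1⟩) (not_le.2 (hyG _ h1))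
  obtain ⟨β, hβ⟩ := hβ
  obtain ⟨t0, ht0⟩ := h.pigeon hβ t β (fun y hy =>
    ((hs y hy.1).2 (t y) (hN2 y (mem_insert_of_mem _ rfl)) (ht y hy.1).1).le.trans hy.2.1)
  have hA : ∀ w, ∃ y ∈ {y | (y ∈ YY C x ∧ s y ≤ β ∧ β < y) ∧ t y = t0}, w < y := fun w => by
    obtain ⟨y, h1, h2, h3⟩ := ht0 w
    exact ⟨y, ⟨h1, h2⟩, h3⟩
  have key : ∀ y ∈ {y | (y ∈ YY C x ∧ s y ≤ β ∧ β < y) ∧ t y = t0},
      ∀ y' ∈ {y | (y ∈ YY C x ∧ s y ≤ β ∧ β < y) ∧ t y = t0}, y < y' → ‖K y' y'‖ ≤ ‖K y y‖ * (1 / 2) := by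
    rintro y ⟨⟨hy, hy1, hy2⟩, hy3⟩ y' ⟨⟨hz, hz1, hz2⟩, hz3⟩ hlt
    have hyN : y' ∈ N y' := hN2 y' (mem_insert _ _)
    have htN : t0 ∈ N y' := hz3 ▸ hN2 y' (mem_insert_of_mem _ rfl)
    have hty : t0 < y := hy3 ▸ (ht y hy).1
    have hnx : IsNx (N y') y y' := ⟨hyN, hlt.le, fun m hm hym => by
      by_contra hno
      exact absurd (((hs y' hz).2 m hm (not_le.1 hno)).trans_le (hz1.trans hy2.le)) (not_lt.2 hym)⟩
    set z : L1 𝕜 W := K y - K y y • ev y with hzdef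
    have hzs : z ∈ sset 𝕜 (Iic t0) := by
      intro g hg
      have hg' : t0 < g := not_le.1 hg
      rw [hzdef, lp.coeFn_sub, Pi.sub_apply, lp.coeFn_smul, Pi.smul_apply, smul_eq_mul]
      rcases lt_trichotomy g y with h1 | h1 | h1
      · rw [ev_ne h1.ne, mul_zero, sub_zero]
        by_contra h0
        exact absurd ((ht y hy).2 g h1 h0) (not_lt.2 (hy3 ▸ hg'.le))
      · rw [h1, ev_self, mul_one, sub_self]
      · rw [ev_ne h1.ne', mul_zero, sub_zero]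
        exact (hK y hy).2.1 g (not_le.2 h1)
    have h1 : PP 𝕜 C (N y') (K y) = K y y • vec 𝕜 C (N y') y + PP 𝕜 C (N y') z := by
      rw [hzdef, map_sub, map_smul, PP_ev]
      abel
    have h2 : (PP 𝕜 C (N y') z) y' = 0 := PP_Iic htN le_rfl hzs y' (not_le.2 (hty.trans hlt))
    have h3 : (PP 𝕜 C (N y') (K y)) y' = K y y * (2 : 𝕜)⁻¹ ^ walk C y y' := by
      rw [h1, lp.coeFn_add, Pi.add_apply, h2, add_zero, vec_of hnx, lp.coeFn_smul, Pi.smul_apply, lp.coeFn_smul,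
        Pi.smul_apply, ev_self, smul_eq_mul, smul_eq_mul, mul_one]
    have h4 : (PP 𝕜 C (N y') (K y)) y' ≠ 0 := by
      rw [h3]
      exact mul_ne_zero (hK y hy).2.2 (pow_ne_zero _ (by norm_num))
    have h5 := kk_unique hb hz (hN3 y' _ (hK y hy).1) (hK y' hz).1 (PP_Iic hyN hlt.le (hK y hy).2.1)
      (hK y' hz).2.1 h4 (hK y' hz).2.2
    rw [← h5, h3, norm_mul, norm_pow, norm_inv, RCLike.norm_two]
    refine mul_le_mul_of_nonneg_left ?_ (norm_nonneg _)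
    calc ((2 : ℝ)⁻¹) ^ walk C y y' ≤ (2⁻¹) ^ 1 := pow_le_pow_of_le_one (by norm_num) (by norm_num)
          (hC.walk_pos hlt)
      _ = 1 / 2 := by norm_num
  obtain ⟨q, w, hq1, hq2, hw1, hw2⟩ := h.seq hA
  have hq3 : ∀ n, ‖K (q n) (q n)‖ ≤ ‖K (q 0) (q 0)‖ * (1 / 2) ^ n := by
    intro n
    induction n with
    | zero => simp
    | succ n ih =>
      refine (key _ (hq1 n) _ (hq1 (n + 1)) (hq2 n)).trans ?_
      rw [pow_succ, ← mul_assoc]
      exact mul_le_mul_of_nonneg_right ih (by norm_num)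
  have hw3 : ∀ n, ‖K w w‖ ≤ ‖K (q 0) (q 0)‖ * (1 / 2) ^ n := fun n => by
    refine (key _ (hq1 n) _ hw1 (hw2 n)).trans ?_
    refine (mul_le_mul_of_nonneg_right (hq3 n) (by norm_num)).trans ?_
    have h1 : 0 ≤ ‖K (q 0) (q 0)‖ * (1 / 2 : ℝ) ^ n := by positivity
    linarith
  have h1 : Filter.Tendsto (fun n : ℕ => ‖K (q 0) (q 0)‖ * (1 / 2 : ℝ) ^ n) Filter.atTop (nhds 0) := by
    have h2 := (tendsto_pow_atTop_nhds_zero_of_lt_one (r := (1 / 2 : ℝ)) (by norm_num) (by norm_num)).const_mul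
      ‖K (q 0) (q 0)‖
    rwa [mul_zero] at h2
  have h2 : ‖K w w‖ ≤ 0 := ge_of_tendsto' h1 hw3
  exact (hK w hw1.1.1).2.2 (norm_le_zero_iff.1 h2)

end MBS
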