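import Mathlib

/-!
# Walks on a well-order whose initial segments have cardinality at most aleph one

* `Two W`: well-order, initial segments of cardinality at most `ℵ₁`, `ℵ₁ < #W`; `Two.bdd`: sets of cardinality
  at most `ℵ₁` are strictly bounded;
* `Lad C`: `C y` is cofinal below `y` with countable initial segments; `exists_lad`;
* `walk C g y`: number of steps of the walk from `y` to `g`; **`walk_add`**: additivity below a point `u` with
  `C u` uncountable;
* `Gam C b`: the countable closed sets; `exists_gam`, `gam_iUnion`;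
* **`exists_closed`**: points of uncountable cofinality closed under a function.
-/

set_option autoImplicit false

noncomputable section

open Set Cardinal

namespace MBS

variable {W : Type} [LinearOrder W] [WellFoundedLT W]

/-- initial segments of cardinality at most `ℵ₁`, the whole is larger -/
structure Two (W : Type) [LinearOrder W] [WellFoundedLT W] : Prop where
  init : ∀ y : W, #(Iio y) ≤ ℵ₁
  big : ℵ₁ < #W

theorem Two.iic (h : Two W) (y : W) : #(Iic y) ≤ ℵ₁ := by
  have e : Iic y = insert y (Iio y) := by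
    ext x
    simp [le_iff_eq_or_lt]
  rw [e]
  refine (mk_insert_le).trans ?_
  exact (add_le_add (h.init y) (one_le_aleph0.trans (aleph0_le_aleph 1))).trans
    (add_eq_self (aleph0_le_aleph 1)).le

/-- **small sets are bounded** -/
theorem Two.bdd (h : Two W) {S : Set W} (hS : #S ≤ ℵ₁) : ∃ w, ∀ s ∈ S, s < w := by
  by_contra hne
  push Not at hne
  have h1 : (univ : Set W) = ⋃ s : S, Iic (s : W) := by
    ext w
    obtain ⟨s, hs, h2⟩ := hne w
    simp only [mem_univ, mem_iUnion, true_iff]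
    exact ⟨⟨s, hs⟩, h2⟩
  have h2 : #W ≤ ℵ₁ := by
    rw [← mk_univ, h1]
    refine (mk_iUnion_le _).trans ?_
    have h3 : (⨆ s : S, #(Iic (s : W))) ≤ ℵ₁ := ciSup_le' fun s => h.iic _
    exact (mul_le_mul' hS h3).trans (mul_eq_self (aleph0_le_aleph 1)).le
  exact absurd h2 (not_le.2 h.big)

theorem Two.bddC (h : Two W) {S : Set W} (hS : S.Countable) : ∃ w, ∀ s ∈ S, s < w :=
  h.bdd ((le_aleph0_iff_set_countable.2 hS).trans (aleph0_le_aleph 1))

/-! ### the ladder -/

/-- `C y` is cofinal below `y` with countable initial segments -/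
structure Lad (C : W → Set W) : Prop where
  lt : ∀ y, ∀ c ∈ C y, c < y
  cof : ∀ y g, g < y → ∃ c ∈ C y, g ≤ c
  ctb : ∀ y g, g < y → {c ∈ C y | c < g}.Countable

/-- the type of order type `ω₁` -/
abbrev Om : Type := (Cardinal.ord (Cardinal.aleph 1)).ToType

theorem Om.mk : #Om = ℵ₁ := mk_ord_toType _

theorem Om.ctb (i : Om) : (Iio i).Countable := by
  have h := mk_Iio_lt i (by simp)
  rw [mk_ord_toType] at h
  exact le_aleph0_iff_set_countable.1 (lt_aleph_one_iff.1 h)

theorem Om.bdd {S : Set Om} (hS : S.Countable) : ∃ w, ∀ s ∈ S, s < w := by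
  by_contra hne
  push Not at hne
  have h1 : (univ : Set Om) ⊆ ⋃ s ∈ S, Iic s := by
    intro w _
    obtain ⟨s, hs, h2⟩ := hne w
    simp only [mem_iUnion]
    exact ⟨s, hs, h2⟩
  have h2 : (⋃ s ∈ S, Iic s).Countable := by
    refine hS.biUnion fun s _ => ?_
    have e : Iic s = insert s (Iio s) := by
      ext x
      simp [le_iff_eq_or_lt]
    rw [e]
    exact (Om.ctb s).insert s
  have h3 : #(univ : Set Om) ≤ ℵ₀ := le_aleph0_iff_set_countable.2 (h2.mono h1)
  rw [mk_univ, Om.mk] at h3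
  exact absurd (lt_aleph_one_iff.2 h3) (lt_irrefl _)

theorem exists_lad (h : Two W) : ∃ C : W → Set W, Lad C := by
  have hf : ∀ y : W, ∃ f : W → Om, InjOn f (Iio y) := by
    intro y
    have h1 : #(Iio y) ≤ #Om := by
      rw [Om.mk]
      exact h.init y
    obtain ⟨f⟩ := h1
    obtain ⟨o, -⟩ := Om.bdd (countable_empty)
    classical
    refine ⟨fun x => if hx : x < y then f ⟨x, hx⟩ else o, fun a ha b hb hab => ?_⟩
    have ha' : a < y := ha
    have hb' : b < y := hb
    simp only [ha', hb', dif_pos] at hab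
    exact congrArg Subtype.val (f.injective hab)
  choose f hf using hf
  have key : ∀ y g, g < y → ∃ c, (c < y ∧ ∀ x, x < y → f y x < f y c → x < c) ∧ g ≤ c := by
    intro y g hg
    have hne : (f y '' Ico g y).Nonempty := ⟨f y g, g, ⟨le_rfl, hg⟩, rfl⟩
    obtain ⟨c, hc, hc2⟩ := wellFounded_lt.min_mem (f y '' Ico g y) hne
    refine ⟨c, ⟨hc.2, fun x hx hlt => ?_⟩, hc.1⟩
    by_contra hcx
    have hx2 : x ∈ Ico g y := ⟨hc.1.trans (not_lt.1 hcx), hx⟩
    have := wellFounded_lt.not_lt_min (f y '' Ico g y) (x := f y x) ⟨x, hx2, rfl⟩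
    rw [← hc2] at this
    exact this hlt
  refine ⟨fun y => {c | c < y ∧ ∀ x, x < y → f y x < f y c → x < c}, ⟨fun y c hc => hc.1, fun y g hg => ?_,
    fun y g hg => ?_⟩⟩
  · obtain ⟨c, hc, hgc⟩ := key y g hg
    exact ⟨c, hc, hgc⟩
  · obtain ⟨c0, hc0, hg0⟩ := key y g hg
    have hsub : MapsTo (f y) {c ∈ {c | c < y ∧ ∀ x, x < y → f y x < f y c → x < c} | c < g} (Iio (f y c0)) := by
      intro c hc
      have hc0' : c < c0 := hc.2.trans_le hg0
      rcases lt_trichotomy (f y c) (f y c0) with hlt | heq | hgt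
      · exact hlt
      · exact absurd (hf y hc.1.1 hc0.1 heq) hc0'.ne
      · exact absurd (hc.1.2 c0 hc0.1 hgt) (not_lt.2 hc0'.le)
    exact MapsTo.countable_of_injOn hsub (fun a ha b hb hab => hf y ha.1.1 hb.1.1 hab) (Om.ctb _)

variable {C : W → Set W}

/-- countable sets below a point with an uncountable ladder are strictly bounded below it -/
theorem Lad.bdd (hC : Lad C) {u : W} (hu : ¬ (C u).Countable) {S : Set W} (hS : S.Countable)
    (hSu : ∀ s ∈ S, s < u) : ∃ b < u, ∀ s ∈ S, s < b := by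
  by_contra hne
  push Not at hne
  refine hu ?_
  have h1 : C u ⊆ ⋃ s ∈ S, insert s {c ∈ C u | c < s} := by
    intro c hc
    obtain ⟨s, hs, h2⟩ := hne c (hC.lt u c hc)
    simp only [mem_iUnion]
    refine ⟨s, hs, ?_⟩
    rcases h2.eq_or_lt with h3 | h3
    · exact Or.inl h3
    · exact Or.inr ⟨hc, h3⟩
  exact (hS.biUnion fun s hs => (hC.ctb u s (hSu s hs)).insert s).mono h1

/-! ### the walk -/

open Classical in
/-- the next step of the walk from `y` to `g` -/
def nxt (C : W → Set W) (g y : W) : W :=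
  if h : ∃ c, c ∈ C y ∧ g ≤ c then wellFounded_lt.min {c | c ∈ C y ∧ g ≤ c} h else y

theorem Lad.nxt_mem (hC : Lad C) {g y : W} (h : g < y) : nxt C g y ∈ C y ∧ g ≤ nxt C g y := by
  obtain ⟨c, hc, hgc⟩ := hC.cof y g h
  have h1 : ∃ c, c ∈ C y ∧ g ≤ c := ⟨c, hc, hgc⟩
  rw [nxt, dif_pos h1]
  exact wellFounded_lt.min_mem {c | c ∈ C y ∧ g ≤ c} h1

theorem Lad.nxt_lt (hC : Lad C) {g y : W} (h : g < y) : nxt C g y < y := hC.lt _ _ (hC.nxt_mem h).1

theorem Lad.nxt_le (hC : Lad C) {g y c : W} (h : g < y) (hc : c ∈ C y) (hgc : g ≤ c) : nxt C g y ≤ c := by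
  have h1 : ∃ c, c ∈ C y ∧ g ≤ c := ⟨c, hc, hgc⟩
  rw [nxt, dif_pos h1]
  exact not_lt.1 (wellFounded_lt.not_lt_min {c | c ∈ C y ∧ g ≤ c} ⟨hc, hgc⟩)

open Classical in
/-- **the number of steps of the walk** from `y` to `g` -/
def walk (C : W → Set W) (g : W) : W → ℕ :=
  wellFounded_lt.fix fun y ih => if h : g < y ∧ nxt C g y < y then 1 + ih (nxt C g y) h.2 else 0

theorem walk_eq (C : W → Set W) (g y : W) :
    walk C g y = if g < y ∧ nxt C g y < y then 1 + walk C g (nxt C g y) else 0 := by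
  classical
  rw [walk, WellFounded.fix_eq]
  by_cases h : g < y ∧ nxt C g y < y
  · rw [dif_pos h, if_pos h]
  · rw [dif_neg h, if_neg h]

theorem walk_self (C : W → Set W) (y : W) : walk C y y = 0 := by
  rw [walk_eq, if_neg (fun h => lt_irrefl _ h.1)]

theorem Lad.walk_lt (hC : Lad C) {g y : W} (h : g < y) : walk C g y = 1 + walk C g (nxt C g y) := by
  rw [walk_eq, if_pos ⟨h, hC.nxt_lt h⟩]

theorem Lad.walk_pos (hC : Lad C) {g y : W} (h : g < y) : 1 ≤ walk C g y := by
  rw [hC.walk_lt h]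
  exact Nat.le_add_right 1 _

/-- **additivity of the walk** -/
theorem Lad.walk_add (hC : Lad C) {u : W} (hu : ¬ (C u).Countable) (y : W) (hy : u < y) :
    ∃ b < u, ∀ g, b < g → g < u → walk C g y = walk C g u + walk C u y := by
  revert hy
  refine wellFounded_lt.induction (C := fun y => u < y →
    ∃ b < u, ∀ g, b < g → g < u → walk C g y = walk C g u + walk C u y) y ?_
  · intro y ih hy
    obtain ⟨b1, hb1, hb1'⟩ := hC.bdd hu (hC.ctb y u hy) (fun s hs => hs.2)
    have hn : ∀ g, b1 < g → g < u → nxt C g y = nxt C u y := by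
      intro g hg hgu
      obtain ⟨h1, h2⟩ := hC.nxt_mem (hgu.trans hy)
      obtain ⟨h3, h4⟩ := hC.nxt_mem hy
      refine le_antisymm (hC.nxt_le (hgu.trans hy) h3 (hgu.le.trans h4)) (hC.nxt_le hy h1 ?_)
      by_contra h5
      exact absurd (hb1' _ ⟨h1, not_le.1 h5⟩) (not_lt.2 (hg.le.trans h2))
    rcases (hC.nxt_mem hy).2.eq_or_lt with he | hlt
    · refine ⟨b1, hb1, fun g hg hgu => ?_⟩
      rw [hC.walk_lt (hgu.trans hy), hC.walk_lt hy, hn g hg hgu, ← he, walk_self]
      ring
    · obtain ⟨b2, hb2, hb2'⟩ := ih (nxt C u y) (hC.nxt_lt hy) hlt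
      refine ⟨max b1 b2, max_lt hb1 hb2, fun g hg hgu => ?_⟩
      rw [hC.walk_lt (hgu.trans hy), hC.walk_lt hy, hn g ((le_max_left _ _).trans_lt hg) hgu,
        hb2' g ((le_max_right _ _).trans_lt hg) hgu]
      ring

/-! ### closed countable sets -/

/-- countable sets closed under the ladders and the function `b` -/
structure Gam (C : W → Set W) (b : W → W → W) (N : Set W) : Prop where
  ctb : N.Countable
  low : ∀ α ∈ N, (C α).Countable → C α ⊆ N
  add : ∀ u ∈ N, ∀ y ∈ N, b u y ∈ N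

open Classical in
/-- one step of the closure -/
def stp (C : W → Set W) (b : W → W → W) (S : Set W) : Set W :=
  (S ∪ ⋃ α ∈ S, if (C α).Countable then C α else ∅) ∪ image2 b S S

theorem stp_ctb (C : W → Set W) (b : W → W → W) {S : Set W} (hS : S.Countable) : (stp C b S).Countable := by
  classical
  refine (hS.union (hS.biUnion fun α _ => ?_)).union (hS.image2 hS b)
  split_ifs with h
  · exact h
  · exact countable_empty

theorem subset_stp (C : W → Set W) (b : W → W → W) (S : Set W) : S ⊆ stp C b S :=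
  fun _ hx => Or.inl (Or.inl hx)

theorem exists_gam (C : W → Set W) (b : W → W → W) {S : Set W} (hS : S.Countable) :
    ∃ N, Gam C b N ∧ S ⊆ N := by
  classical
  set F : ℕ → Set W := fun n => (stp C b)^[n] S with hF
  have hs : ∀ n, F (n + 1) = stp C b (F n) := fun n => Function.iterate_succ_apply' _ _ _
  have hc : ∀ n, (F n).Countable := by
    intro n
    induction n with
    | zero => exact hS
    | succ n ih =>
      rw [hs]
      exact stp_ctb C b ih
  have hm : Monotone F := monotone_nat_of_le_succ fun n => by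
    rw [hs]
    exact subset_stp C b _
  refine ⟨⋃ n, F n, ⟨countable_iUnion hc, fun α hα hca => ?_, fun u hu y hy => ?_⟩, subset_iUnion F 0⟩
  · obtain ⟨n, hn⟩ := mem_iUnion.1 hα
    intro x hx
    refine mem_iUnion.2 ⟨n + 1, ?_⟩
    rw [hs]
    refine Or.inl (Or.inr ?_)
    simp only [mem_iUnion]
    refine ⟨α, hn, ?_⟩
    rw [if_pos hca]
    exact hx
  · obtain ⟨n, hn⟩ := mem_iUnion.1 hu
    obtain ⟨m, hm'⟩ := mem_iUnion.1 hy
    refine mem_iUnion.2 ⟨max n m + 1, ?_⟩
    rw [hs]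
    exact Or.inr ⟨u, hm (le_max_left n m) hn, y, hm (le_max_right n m) hm', rfl⟩

theorem gam_iUnion {b : W → W → W} {F : ℕ → Set W} (hm : Monotone F) (h : ∀ n, Gam C b (F n)) :
    Gam C b (⋃ n, F n) := by
  refine ⟨countable_iUnion fun n => (h n).ctb, fun α hα hca => ?_, fun u hu y hy => ?_⟩
  · obtain ⟨n, hn⟩ := mem_iUnion.1 hα
    exact ((h n).low α hn hca).trans (subset_iUnion F n)
  · obtain ⟨n, hn⟩ := mem_iUnion.1 hu
    obtain ⟨m, hm'⟩ := mem_iUnion.1 hy
    exact mem_iUnion.2 ⟨max n m, (h _).add u (hm (le_max_left n m) hn) y (hm (le_max_right n m) hm')⟩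

/-! ### closing off -/

/-- **points closed under a function**, with uncountable ladder -/
theorem exists_closed (h : Two W) (hC : Lad C) (g : W → W) (w0 : W) :
    ∃ y, w0 < y ∧ ¬ (C y).Countable ∧ ∀ x < y, g x < y := by
  have hG : ∀ w : W, ∃ w', w < w' ∧ ∀ x ≤ w, g x < w' := by
    intro w
    have h1 : #(insert w (g '' Iic w) : Set W) ≤ ℵ₁ := by
      refine (mk_insert_le).trans ?_
      exact (add_le_add (mk_image_le.trans (h.iic w)) (one_le_aleph0.trans (aleph0_le_aleph 1))).trans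
        (add_eq_self (aleph0_le_aleph 1)).le
    obtain ⟨w', hw'⟩ := h.bdd h1
    exact ⟨w', hw' w (mem_insert _ _), fun x hx => hw' _ (mem_insert_of_mem _ ⟨x, hx, rfl⟩)⟩
  choose G hG1 hG2 using hG
  have hB : ∀ S : Set W, ∃ w, S.Countable → ∀ s ∈ S, s < w := by
    intro S
    by_cases hS : S.Countable
    · obtain ⟨w, hw⟩ := h.bddC hS
      exact ⟨w, fun _ => hw⟩
    · exact ⟨w0, fun h => absurd h hS⟩
  choose B hB using hB
  let H : Om → W := wellFounded_lt.fix fun i ih => B (insert w0 (⋃ j : Iio i, {G (ih j.1 j.2)}))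
  have hH : ∀ i, H i = B (insert w0 (⋃ j : Iio i, {G (H j)})) := fun i => WellFounded.fix_eq _ _ _
  have hcs : ∀ i : Om, (insert w0 (⋃ j : Iio i, {G (H j)})).Countable := by
    intro i
    have := (Om.ctb i).to_subtype
    exact (countable_iUnion fun j => countable_singleton _).insert w0
  have h0 : ∀ i, w0 < H i := by
    intro i
    rw [hH]
    exact hB _ (hcs i) _ (mem_insert _ _)
  have hlt : ∀ j i, j < i → G (H j) < H i := by
    intro j i hji
    rw [hH i]
    exact hB _ (hcs i) _ (mem_insert_of_mem _ (mem_iUnion.2 ⟨⟨j, hji⟩, rfl⟩))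
  have hmono : ∀ j i, j < i → H j < H i := fun j i hji => (hG1 _).trans (hlt j i hji)
  have hr : #(range H) ≤ ℵ₁ := mk_range_le.trans Om.mk.le
  have hne : {w | ∀ s ∈ range H, s < w}.Nonempty := h.bdd hr
  set y := wellFounded_lt.min {w | ∀ s ∈ range H, s < w} hne with hy
  have hyu : ∀ i, H i < y := fun i => (wellFounded_lt.min_mem _ hne) _ ⟨i, rfl⟩
  have hyl : ∀ x < y, ∃ i, x ≤ H i := by
    intro x hx
    by_contra hno
    push Not at hno
    refine wellFounded_lt.not_lt_min {w | ∀ s ∈ range H, s < w} (x := x) ?_ hx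
    rintro s ⟨i, rfl⟩
    exact hno i
  obtain ⟨i0, -⟩ := Om.bdd (countable_empty)
  refine ⟨y, (h0 i0).trans (hyu i0), ?_, fun x hx => ?_⟩
  · intro hcy
    have h1 : ∀ c : W, ∃ i, c < y → c ≤ H i := by
      intro c
      by_cases hc : c < y
      · obtain ⟨i, hi⟩ := hyl c hc
        exact ⟨i, fun _ => hi⟩
      · exact ⟨i0, fun h => absurd h hc⟩
    choose I hI using h1
    obtain ⟨i, hi⟩ := Om.bdd (hcy.image I)
    obtain ⟨c, hc, hic⟩ := hC.cof y (H i) (hyu i)
    have h2 := hmono _ _ (hi (I c) ⟨c, hc, rfl⟩)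
    exact absurd (hic.trans (hI c (hC.lt y c hc))) (not_le.2 h2)
  · obtain ⟨i, hi⟩ := hyl x hx
    obtain ⟨j, hj⟩ := Om.bdd (countable_singleton i)
    exact (hG2 (H i) x hi).trans ((hlt i j (hj i rfl)).trans (hyu j))

/-- **pigeonhole** -/
theorem Two.pigeon (h : Two W) {A : Set W} (hA : ∀ w, ∃ y ∈ A, w < y) (t : W → W) (β : W)
    (ht : ∀ y ∈ A, t y ≤ β) : ∃ t0, ∀ w, ∃ y ∈ A, t y = t0 ∧ w < y := by
  by_contra hne
  push Not at hne
  choose B hB using hne
  obtain ⟨w, hw⟩ := h.bdd (mk_image_le.trans (h.iic β) : #(B '' Iic β) ≤ ℵ₁)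
  obtain ⟨y, hy, hwy⟩ := hA w
  have h1 := hB (t y) y hy rfl
  have h2 := hw (B (t y)) ⟨t y, ht y hy, rfl⟩
  exact absurd (hwy.trans_le h1) (not_lt.2 h2.le)

/-- a sequence with a point above it -/
theorem Two.seq (h : Two W) {A : Set W} (hA : ∀ w, ∃ y ∈ A, w < y) :
    ∃ (s : ℕ → W) (w : W), (∀ n, s n ∈ A) ∧ (∀ n, s n < s (n + 1)) ∧ w ∈ A ∧ ∀ n, s n < w := by
  choose f hf1 hf2 using hA
  have hne : Nonempty W := by
    by_contra hno
    rw [not_nonempty_iff] at hno
    have h1 := h.big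
    rw [mk_eq_zero] at h1
    exact absurd h1 not_lt_zero
  obtain ⟨w0⟩ := hne
  obtain ⟨w, hw⟩ := h.bddC (countable_range fun n => (f^[n + 1]) w0)
  refine ⟨fun n => (f^[n + 1]) w0, f w, fun n => ?_, fun n => ?_, hf1 w, fun n => (hw _ ⟨n, rfl⟩).trans (hf2 w)⟩
  · simp only [Function.iterate_succ_apply']
    exact hf1 _
  · simp only [Function.iterate_succ_apply']
    exact hf2 _

/-! ### the order type `ω₂` -/

theorem two_of_ord : Two (Cardinal.ord (Cardinal.aleph 2)).ToType := by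
  refine ⟨fun y => ?_, ?_⟩
  · have h := mk_Iio_lt y (by simp)
    have e : (Cardinal.aleph 2 : Cardinal.{0}) = Order.succ ℵ₁ := by
      rw [Cardinal.succ_aleph, one_add_one_eq_two]
    rw [mk_ord_toType] at h
    exact Order.lt_succ_iff.1 (h.trans_eq e)
  · rw [mk_ord_toType]
    exact Cardinal.aleph_lt_aleph.2 (by norm_num)

end MBS
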