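import Pool.Agent.MBS.Def
import Pool.Agent.MBS.Ord

/-!
# The skeleton on the space of summable functions on a well-order

* `L1 𝕜 W`, `ev g` (unit vectors), `ext_ev`, `op v` (operator with given values at the unit vectors);
* `sset N`: the functions supported in `N`; `sset_eq`: closed span of the unit vectors;
* `rr N g` (next element of `N`), `vec`, **`PP`** (the projections), `vec_vec` (compatibility);
* **`skel`**: the family is a projectional skeleton.
-/

set_option autoImplicit false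

noncomputable section

open Set Cardinal TopologicalSpace

namespace MBS

section l1

variable (𝕜 : Type) [RCLike 𝕜] (W : Type)

/-- the summable functions on `W` -/
abbrev L1 : Type := lp (fun _ : W => 𝕜) 1

variable {𝕜 W}

theorem l1_sum (f : L1 𝕜 W) : Summable fun g => ‖f g‖ := by
  have h := (memℓp_gen_iff (p := 1) (by simp)).1 (lp.memℓp f)
  simpa using h

theorem l1_norm (f : L1 𝕜 W) : ‖f‖ = ∑' g, ‖f g‖ := by
  have h := lp.norm_eq_tsum_rpow (p := 1) (by simp) f
  simpa using h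

variable [DecidableEq W]

/-- unit vectors -/
def ev (g : W) : L1 𝕜 W := lp.single 1 g (1 : 𝕜)

theorem ev_self (g : W) : (ev g : L1 𝕜 W) g = 1 := lp.single_apply_self _ _ _

theorem ev_ne {g j : W} (h : j ≠ g) : (ev g : L1 𝕜 W) j = 0 := lp.single_apply_ne _ _ _ h

theorem norm_ev (g : W) : ‖(ev g : L1 𝕜 W)‖ = 1 := by
  rw [ev, lp.norm_single (by norm_num)]
  exact norm_one

theorem hasSum_ev (f : L1 𝕜 W) : HasSum (fun g => f g • (ev g : L1 𝕜 W)) f := by
  have h := lp.hasSum_single (p := 1) (by norm_num) f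
  refine h.congr_fun ?_
  intro g
  rw [ev, ← lp.single_smul]
  simp

theorem ext_ev {E : Type*} [NormedAddCommGroup E] [NormedSpace 𝕜 E] {S T : L1 𝕜 W →L[𝕜] E}
    (h : ∀ g, S (ev g) = T (ev g)) : S = T := by
  ext f
  have h1 := (hasSum_ev f).mapL S
  have h2 := (hasSum_ev f).mapL T
  have e : (fun g => S (f g • (ev g : L1 𝕜 W))) = fun g => T (f g • (ev g : L1 𝕜 W)) := by
    funext g
    rw [map_smul, map_smul, h]
  rw [e] at h1
  exact h1.unique h2

omit [DecidableEq W] in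
theorem op_bound (v : W → L1 𝕜 W) (hv : ∀ g, ‖v g‖ ≤ 1) (f : L1 𝕜 W) : ‖∑' g, f g • v g‖ ≤ 1 * ‖f‖ := by
  rw [one_mul, l1_norm f]
  refine tsum_of_norm_bounded (l1_sum f).hasSum fun g => ?_
  rw [norm_smul]
  exact mul_le_of_le_one_right (norm_nonneg _) (hv g)

/-- **the operator with given values at the unit vectors** -/
def op (v : W → L1 𝕜 W) (hv : ∀ g, ‖v g‖ ≤ 1) : L1 𝕜 W →L[𝕜] L1 𝕜 W :=
  LinearMap.mkContinuous
    { toFun := fun f => ∑' g, f g • v g
      map_add' := fun f h => by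
        have hs : ∀ f : L1 𝕜 W, Summable fun g => f g • v g := fun f =>
          Summable.of_norm_bounded (l1_sum f) fun g => by
            rw [norm_smul]
            exact mul_le_of_le_one_right (norm_nonneg _) (hv g)
        rw [← (hs f).tsum_add (hs h)]
        refine tsum_congr fun g => ?_
        rw [lp.coeFn_add, Pi.add_apply, add_smul]
      map_smul' := fun c f => by
        simp only [RingHom.id_apply]
        rw [← tsum_const_smul'']
        refine tsum_congr fun g => ?_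
        rw [lp.coeFn_smul, Pi.smul_apply, smul_eq_mul, mul_smul] } 1 fun f => op_bound v hv f

theorem op_apply (v : W → L1 𝕜 W) (hv : ∀ g, ‖v g‖ ≤ 1) (f : L1 𝕜 W) : op v hv f = ∑' g, f g • v g := rfl

theorem op_ev (v : W → L1 𝕜 W) (hv : ∀ g, ‖v g‖ ≤ 1) (g : W) : op v hv (ev g) = v g := by
  rw [op_apply, tsum_eq_single g, ev_self, one_smul]
  intro j hj
  rw [ev_ne hj, zero_smul]

theorem norm_op (v : W → L1 𝕜 W) (hv : ∀ g, ‖v g‖ ≤ 1) : ‖op v hv‖ ≤ 1 :=
  LinearMap.mkContinuous_norm_le _ zero_le_one _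

/-- coordinate functionals -/
def co (𝕜 : Type) [RCLike 𝕜] {W : Type} (g : W) : L1 𝕜 W →L[𝕜] 𝕜 := lp.evalCLM 𝕜 (fun _ : W => 𝕜) 1 g

omit [DecidableEq W] in
theorem co_apply (g : W) (f : L1 𝕜 W) : co 𝕜 g f = f g := rfl

/-- the functions supported in `N` -/
def sset (𝕜 : Type) [RCLike 𝕜] {W : Type} (N : Set W) : Submodule 𝕜 (L1 𝕜 W) where
  carrier := {f | ∀ g ∉ N, f g = 0}
  zero_mem' := fun g _ => rfl
  add_mem' := fun {f h} hf hh g hg => by
    rw [lp.coeFn_add, Pi.add_apply, hf g hg, hh g hg, add_zero]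
  smul_mem' := fun c f hf g hg => by
    rw [lp.coeFn_smul, Pi.smul_apply, hf g hg, smul_zero]

omit [DecidableEq W] in
theorem mem_sset {N : Set W} {f : L1 𝕜 W} : f ∈ sset 𝕜 N ↔ ∀ g ∉ N, f g = 0 := Iff.rfl

omit [DecidableEq W] in
theorem sset_mono {N M : Set W} (h : N ⊆ M) : sset 𝕜 N ≤ sset 𝕜 M := fun _ hf g hg => hf g fun h' => hg (h h')

omit [DecidableEq W] in
theorem sset_closed (N : Set W) : IsClosed (sset 𝕜 N : Set (L1 𝕜 W)) := by
  have e : (sset 𝕜 N : Set (L1 𝕜 W)) = ⋂ g ∈ Nᶜ, {f | co 𝕜 g f = 0} := by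
    ext f
    simp only [SetLike.mem_coe, mem_sset, mem_iInter, mem_compl_iff, Set.mem_ofPred_eq, co_apply]
  rw [e]
  exact isClosed_biInter fun g _ => isClosed_eq (co 𝕜 g).continuous continuous_const

theorem ev_mem {N : Set W} {g : W} (h : g ∈ N) : (ev g : L1 𝕜 W) ∈ sset 𝕜 N := fun j hj =>
  ev_ne fun e => hj (e ▸ h)

theorem sset_sub {N : Set W} {f : L1 𝕜 W} (hf : f ∈ sset 𝕜 N) {K : Set (L1 𝕜 W)} (hK : IsClosed K)
    (hK2 : ∀ s : Finset W, (∀ g ∈ s, g ∈ N) → ∑ g ∈ s, f g • (ev g : L1 𝕜 W) ∈ K) : f ∈ K := by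
  classical
  have h1 := hasSum_ev f
  refine hK.mem_of_tendsto h1 (Filter.Eventually.of_forall fun s => ?_)
  have e : ∑ g ∈ s, f g • (ev g : L1 𝕜 W) = ∑ g ∈ s.filter (fun g => g ∈ N), f g • (ev g : L1 𝕜 W) := by
    rw [Finset.sum_filter]
    refine Finset.sum_congr rfl fun g _ => ?_
    split_ifs with h
    · rfl
    · rw [hf g h, zero_smul]
  rw [e]
  exact hK2 _ fun g hg => (Finset.mem_filter.1 hg).2

/-- **closed span of the unit vectors** -/
theorem sset_eq (N : Set W) :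
    (sset 𝕜 N : Set (L1 𝕜 W)) = closure (Submodule.span 𝕜 ((fun g => (ev g : L1 𝕜 W)) '' N) : Set (L1 𝕜 W)) := by
  refine Subset.antisymm (fun f hf => ?_) ?_
  · refine sset_sub hf isClosed_closure fun s hs => subset_closure ?_
    exact Submodule.sum_mem _ fun g hg => Submodule.smul_mem _ _ (Submodule.subset_span ⟨g, hs g hg, rfl⟩)
  · refine closure_minimal ?_ (sset_closed N)
    refine Submodule.span_le.2 ?_
    rintro _ ⟨g, hg, rfl⟩
    exact ev_mem hg

theorem sset_sep {N : Set W} (hN : N.Countable) : IsSeparable (sset 𝕜 N : Set (L1 𝕜 W)) := by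
  rw [sset_eq]
  exact ((hN.image _).isSeparable.span).closure

/-- the restriction of a functional -/
theorem map_sset {T : L1 𝕜 W →L[𝕜] L1 𝕜 W} {N M : Set W} (h : ∀ g ∈ N, T (ev g) ∈ sset 𝕜 M) {f : L1 𝕜 W}
    (hf : f ∈ sset 𝕜 N) : T f ∈ sset 𝕜 M := by
  have h1 : f ∈ T ⁻¹' (sset 𝕜 M : Set (L1 𝕜 W)) := by
    refine sset_sub hf ((sset_closed M).preimage T.continuous) fun s hs => ?_
    rw [mem_preimage, map_sum]
    refine Submodule.sum_mem _ fun g hg => ?_
    rw [map_smul]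
    exact Submodule.smul_mem _ _ (h g (hs g hg))
  exact h1

end l1

section pp

variable {𝕜 : Type} [RCLike 𝕜] {W : Type} [LinearOrder W] [WellFoundedLT W] {C : W → Set W} {b : W → W → W}

/-- `n` is the least element of `N` above or at `g` -/
structure IsNx (N : Set W) (g n : W) : Prop where
  mem : n ∈ N
  le : g ≤ n
  min : ∀ m ∈ N, g ≤ m → n ≤ m

omit [WellFoundedLT W] in
theorem IsNx.unique {N : Set W} {g n m : W} (h : IsNx N g n) (h' : IsNx N g m) : n = m :=
  le_antisymm (h.min m h'.mem h'.le) (h'.min n h.mem h.le)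

omit [WellFoundedLT W] in
theorem IsNx.self {N : Set W} {g : W} (h : g ∈ N) : IsNx N g g := ⟨h, le_rfl, fun _ _ h => h⟩

theorem exists_nx {N : Set W} {g : W} (h : ∃ n ∈ N, g ≤ n) : ∃ n, IsNx N g n := by
  have hne : {n | n ∈ N ∧ g ≤ n}.Nonempty := by
    obtain ⟨n, h1, h2⟩ := h
    exact ⟨n, h1, h2⟩
  obtain ⟨h1, h2⟩ := wellFounded_lt.min_mem {n | n ∈ N ∧ g ≤ n} hne
  exact ⟨_, h1, h2, fun m hm hgm => not_lt.1 (wellFounded_lt.not_lt_min {n | n ∈ N ∧ g ≤ n} ⟨hm, hgm⟩)⟩

open Classical in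
/-- the values of the projection at the unit vectors -/
def vec (𝕜 : Type) [RCLike 𝕜] (C : W → Set W) (N : Set W) (g : W) : L1 𝕜 W :=
  if h : ∃ n, IsNx N g n then ((2 : 𝕜)⁻¹ ^ walk C g h.choose) • ev h.choose else 0

theorem vec_of {N : Set W} {g n : W} (h : IsNx N g n) :
    vec 𝕜 C N g = ((2 : 𝕜)⁻¹ ^ walk C g n) • ev n := by
  have h1 : ∃ n, IsNx N g n := ⟨n, h⟩
  rw [vec, dif_pos h1, h1.choose_spec.unique h]

theorem vec_none {N : Set W} {g : W} (h : ∀ n ∈ N, n < g) : vec 𝕜 C N g = 0 := by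
  rw [vec, dif_neg]
  rintro ⟨n, hn⟩
  exact absurd (h n hn.mem) (not_lt.2 hn.le)

theorem vec_self {N : Set W} {g : W} (h : g ∈ N) : vec 𝕜 C N g = ev g := by
  rw [vec_of (IsNx.self h), walk_self, pow_zero, one_smul]

theorem vec_cases (N : Set W) (g : W) : (∃ n, IsNx N g n) ∨ ∀ n ∈ N, n < g := by
  by_cases h : ∃ n ∈ N, g ≤ n
  · exact Or.inl (exists_nx h)
  · push Not at h
    exact Or.inr h

theorem norm_vec (N : Set W) (g : W) : ‖vec 𝕜 C N g‖ ≤ 1 := by
  rcases vec_cases N g with ⟨n, hn⟩ | h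
  · rw [vec_of hn, norm_smul, norm_ev, mul_one, norm_pow, norm_inv, RCLike.norm_two]
    exact pow_le_one₀ (by norm_num) (by norm_num)
  · rw [vec_none h, norm_zero]
    exact zero_le_one

theorem vec_mem (N : Set W) (g : W) : vec 𝕜 C N g ∈ sset 𝕜 N := by
  rcases vec_cases N g with ⟨n, hn⟩ | h
  · rw [vec_of hn]
    exact Submodule.smul_mem _ _ (ev_mem hn.mem)
  · rw [vec_none h]
    exact Submodule.zero_mem _

/-- **the projections** -/
def PP (𝕜 : Type) [RCLike 𝕜] (C : W → Set W) (N : Set W) : L1 𝕜 W →L[𝕜] L1 𝕜 W :=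
  op (vec 𝕜 C N) (norm_vec N)

theorem PP_ev (N : Set W) (g : W) : PP 𝕜 C N (ev g) = vec 𝕜 C N g := op_ev _ _ g

theorem norm_PP (N : Set W) : ‖PP 𝕜 C N‖ ≤ 1 := norm_op _ _

theorem PP_mem (N : Set W) (f : L1 𝕜 W) : PP 𝕜 C N f ∈ sset 𝕜 N := by
  refine map_sset (N := univ) (fun g _ => ?_) (fun g hg => absurd (mem_univ g) hg)
  rw [PP_ev]
  exact vec_mem N g

theorem PP_fix {N : Set W} {f : L1 𝕜 W} (hf : f ∈ sset 𝕜 N) : PP 𝕜 C N f = f := by
  have h1 : f ∈ {f | PP 𝕜 C N f = f} := by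
    refine sset_sub hf (isClosed_eq (PP 𝕜 C N).continuous continuous_id) fun s hs => ?_
    rw [Set.mem_ofPred_eq, map_sum]
    refine Finset.sum_congr rfl fun g hg => ?_
    rw [map_smul, PP_ev, vec_self (hs g hg)]
  exact h1

theorem range_PP (N : Set W) : range (PP 𝕜 C N) = (sset 𝕜 N : Set (L1 𝕜 W)) :=
  Subset.antisymm (by rintro _ ⟨f, rfl⟩; exact PP_mem N f) fun f hf => ⟨f, PP_fix hf⟩

/-- the function `b` witnesses the additivity of the walk -/
def Bad (C : W → Set W) (b : W → W → W) : Prop :=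
  ∀ u y, u < y → ¬ (C u).Countable →
    b u y < u ∧ ∀ g, b u y < g → g < u → walk C g y = walk C g u + walk C u y

theorem exists_bad (hC : Lad C) : ∃ b : W → W → W, Bad C b := by
  have h : ∀ u y : W, ∃ b : W, u < y → ¬ (C u).Countable →
      b < u ∧ ∀ g, b < g → g < u → walk C g y = walk C g u + walk C u y := by
    intro u y
    by_cases hy : u < y
    · by_cases hu : ¬ (C u).Countable
      · obtain ⟨b, hb⟩ := hC.walk_add hu y hy
        exact ⟨b, fun _ _ => hb⟩
      · exact ⟨u, fun _ h => absurd h hu⟩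
    · exact ⟨u, fun h _ => absurd h hy⟩
  choose b hb using h
  exact ⟨b, hb⟩

/-- **compatibility at the unit vectors** -/
theorem PP_vec (hC : Lad C) (hb : Bad C b) {N M : Set W} (hM : Gam C b M) (hNM : N ⊆ M) (g : W) :
    PP 𝕜 C N (vec 𝕜 C M g) = vec 𝕜 C N g := by
  rcases vec_cases M g with ⟨u, hu⟩ | h
  · rw [vec_of hu, map_smul, PP_ev]
    rcases hu.le.eq_or_lt with he | hlt
    · rw [he, walk_self, pow_zero, one_smul]
    · have huu : ¬ (C u).Countable := by
        intro hc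
        obtain ⟨c, hc1, hc2⟩ := hC.cof u g hlt
        exact absurd (hu.min c (hM.low u hu.mem hc hc1) hc2) (not_le.2 (hC.lt u c hc1))
      rcases vec_cases N g with ⟨r, hr⟩ | h
      · have hur : u ≤ r := hu.min r (hNM hr.mem) hr.le
        have hr2 : IsNx N u r := ⟨hr.mem, hur, fun m hm hum => hr.min m hm (hu.le.trans hum)⟩
        rw [vec_of hr, vec_of hr2, smul_smul, ← pow_add]
        congr 2
        rcases hur.eq_or_lt with he | hlt2
        · rw [← he, walk_self, add_zero]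
        · obtain ⟨h1, h2⟩ := hb u r hlt2 huu
          refine (h2 g ?_ hlt).symm
          by_contra hno
          exact absurd (hu.min _ (hM.add u hu.mem r (hNM hr.mem)) (not_lt.1 hno)) (not_le.2 h1)
      · rw [vec_none h, vec_none (fun n hn => ?_), smul_zero]
        exact (h n hn).trans hlt
  · rw [vec_none h, map_zero, vec_none]
    exact fun n hn => h n (hNM hn)

theorem PP_left (hC : Lad C) (hb : Bad C b) {N M : Set W} (hM : Gam C b M) (hNM : N ⊆ M) (f : L1 𝕜 W) :
    PP 𝕜 C N (PP 𝕜 C M f) = PP 𝕜 C N f := by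
  have h : (PP 𝕜 C N).comp (PP 𝕜 C M) = PP 𝕜 C N := by
    refine ext_ev fun g => ?_
    rw [ContinuousLinearMap.comp_apply, PP_ev, PP_vec hC hb hM hNM, PP_ev]
  rw [← ContinuousLinearMap.comp_apply, h]

theorem PP_right {N M : Set W} (hNM : N ⊆ M) (f : L1 𝕜 W) : PP 𝕜 C M (PP 𝕜 C N f) = PP 𝕜 C N f :=
  PP_fix (sset_mono hNM (PP_mem N f))

omit [WellFoundedLT W] in
theorem lub_gam (hm : ∀ (F : ℕ → Set W), Monotone F → (∀ n, Gam C b (F n)) → Gam C b (⋃ n, F n))
    (f : ℕ → {N : Set W // Gam C b N}) (hf : Monotone f) (t : {N : Set W // Gam C b N}) :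
    IsLUB (range f) t ↔ t.1 = ⋃ n, (f n).1 := by
  have h1 : IsLUB (range f) ⟨⋃ n, (f n).1, hm (fun n => (f n).1) (fun _ _ h => hf h) fun n => (f n).2⟩ := by
    constructor
    · rintro _ ⟨n, rfl⟩
      exact subset_iUnion (fun n => (f n).1) n
    · intro s hs
      exact iUnion_subset fun n => hs ⟨n, rfl⟩
  constructor
  · intro h
    rw [h.unique h1]
  · intro h
    have e : t = ⟨⋃ n, (f n).1, hm (fun n => (f n).1) (fun _ _ h => hf h) fun n => (f n).2⟩ := Subtype.ext h
    rw [e]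
    exact h1

/-- **the projectional skeleton** -/
theorem skel (hC : Lad C) (hb : Bad C b) :
    ProjSkel (fun N : {N : Set W // Gam C b N} => PP 𝕜 C N.1) where
  ne := by
    obtain ⟨N, hN, -⟩ := exists_gam C b countable_empty
    exact ⟨⟨N, hN⟩⟩
  dir := fun s t => by
    obtain ⟨N, hN, hs⟩ := exists_gam C b (s.2.ctb.union t.2.ctb)
    exact ⟨⟨N, hN⟩, subset_union_left.trans hs, subset_union_right.trans hs⟩
  sup := fun f hf =>
    ⟨⟨⋃ n, (f n).1, gam_iUnion (fun _ _ h => hf h) fun n => (f n).2⟩,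
      (lub_gam (fun F h1 h2 => gam_iUnion h1 h2) f hf _).2 rfl⟩
  proj := fun s x => PP_fix (PP_mem s.1 x)
  sep := fun s => by
    rw [range_PP]
    exact sset_sep s.2.ctb
  cover := fun x => by
    obtain ⟨N, hN, hs⟩ := exists_gam C b (l1_sum x).countable_support
    refine ⟨⟨N, hN⟩, ?_⟩
    rw [range_PP]
    intro g hg
    by_contra hno
    exact hg (hs (fun h => hno (norm_eq_zero.1 h)))
  left := fun s t hst x => PP_left hC hb t.2 hst x
  right := fun s t hst x => PP_right hst x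
  lim := fun f hf t ht => by
    rw [lub_gam (fun F h1 h2 => gam_iUnion h1 h2) f hf] at ht
    rw [range_PP, ht]
    have e : (⋃ n, range (PP 𝕜 C (f n).1)) = ⋃ n, (sset 𝕜 (f n).1 : Set (L1 𝕜 W)) := by
      simp only [range_PP]
    rw [e]
    refine Subset.antisymm (fun x hx => ?_) (closure_minimal ?_ (sset_closed _))
    · refine sset_sub hx isClosed_closure fun s hs => subset_closure ?_
      have h1 : ∃ n, ∀ g ∈ s, g ∈ (f n).1 := by
        clear hx
        induction s using Finset.induction_on with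
        | empty => exact ⟨0, fun g hg => absurd hg (Finset.notMem_empty g)⟩
        | insert a s ha ih =>
          obtain ⟨n, hn⟩ := ih fun g hg => hs g (Finset.mem_insert_of_mem hg)
          obtain ⟨m, hm⟩ := mem_iUnion.1 (hs a (Finset.mem_insert_self a s))
          refine ⟨max n m, fun g hg => ?_⟩
          rcases Finset.mem_insert.1 hg with rfl | h
          · exact hf (le_max_right n m) hm
          · exact hf (le_max_left n m) (hn g h)
      obtain ⟨n, hn⟩ := h1
      exact mem_iUnion.2 ⟨n, Submodule.sum_mem _ fun g hg => Submodule.smul_mem _ _ (ev_mem (hn g hg))⟩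
    · exact iUnion_subset fun n => sset_mono (subset_iUnion (fun n => (f n).1) n)

end pp

end MBS
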